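import Mathlib

set_option autoImplicit false

/-!
Products `∏ a i ^ x i` of pairwise commuting elements of a group.
-/

namespace Pool.Agent.TH558.HG

open scoped commutatorElement

section

variable {ι P : Type} [Group P]

/-- the commutative group generated by commuting elements -/
@[reducible] def cgrp (a : ι → P) (hc : ∀ i j, a i * a j = a j * a i) :
    CommGroup ↥(Subgroup.closure (Set.range a)) :=
  Subgroup.closureCommGroupOfComm (by
    rintro _ ⟨i, rfl⟩ _ ⟨j, rfl⟩
    exact hc i j)

/-- the homomorphism to the commutative group -/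
noncomputable def prdK (a : ι → P) (hc : ∀ i j, a i * a j = a j * a i) :
    (ι →₀ ℤ) →+ Additive ↥(Subgroup.closure (Set.range a)) :=
  letI := cgrp a hc
  Finsupp.liftAddHom (fun i => zmultiplesHom (Additive ↥(Subgroup.closure (Set.range a)))
    (Additive.ofMul ⟨a i, Subgroup.subset_closure ⟨i, rfl⟩⟩))

/-- the product `∏ a i ^ x i` -/
noncomputable def prd (a : ι → P) (hc : ∀ i j, a i * a j = a j * a i) (x : ι →₀ ℤ) : P :=
  ((prdK a hc x).toMul : ↥(Subgroup.closure (Set.range a)))

variable (a : ι → P) (hc : ∀ i j, a i * a j = a j * a i)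

theorem prd_zero : prd a hc 0 = 1 := by
  unfold prd
  rw [map_zero]
  rfl

theorem prd_add (x y : ι →₀ ℤ) : prd a hc (x + y) = prd a hc x * prd a hc y := by
  unfold prd
  rw [map_add]
  rfl

theorem prd_single (i : ι) (n : ℤ) : prd a hc (Finsupp.single i n) = a i ^ n := by
  let _ := cgrp a hc
  have : prdK a hc (Finsupp.single i n) =
      n • (Additive.ofMul ⟨a i, Subgroup.subset_closure ⟨i, rfl⟩⟩) := by
    unfold prdK
    rw [Finsupp.liftAddHom_apply_single, zmultiplesHom_apply]
  unfold prd
  rw [this]
  rfl

theorem prd_neg (x : ι →₀ ℤ) : prd a hc (-x) = (prd a hc x)⁻¹ := by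
  rw [eq_inv_iff_mul_eq_one, ← prd_add, neg_add_cancel, prd_zero]

theorem prd_eq_one (x : ι →₀ ℤ) (h : ∀ i, a i ^ x i = 1) : prd a hc x = 1 := by
  have key : ∀ s : Finset ι, prd a hc (∑ i ∈ s, Finsupp.single i (x i)) = 1 := by
    classical
    intro s
    induction s using Finset.induction_on with
    | empty => rw [Finset.sum_empty, prd_zero]
    | insert i s hi ih => rw [Finset.sum_insert hi, prd_add, ih, prd_single, h, mul_one]
  have := key x.support
  have h2 : (∑ i ∈ x.support, Finsupp.single i (x i)) = x := Finsupp.sum_single x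
  rwa [h2] at this

/-- naturality -/
theorem map_prd {Q κ : Type} [Group Q] (φ : P →* Q) (a' : κ → Q)
    (hc' : ∀ i j, a' i * a' j = a' j * a' i) (σ : ι → κ) (h : ∀ i, φ (a i) = a' (σ i))
    (x : ι →₀ ℤ) : φ (prd a hc x) = prd a' hc' (x.mapDomain σ) := by
  induction x using Finsupp.induction_linear with
  | zero => rw [prd_zero, map_one, Finsupp.mapDomain_zero, prd_zero]
  | add x y hx hy => rw [prd_add, map_mul, hx, hy, Finsupp.mapDomain_add, prd_add]
  | single i n => rw [prd_single, map_zpow, h, Finsupp.mapDomain_single, prd_single]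

/-- conjugation -/
theorem conj_prd (g : P) (σ : ι → ι) (h : ∀ i, g * a i * g⁻¹ = a (σ i)) (x : ι →₀ ℤ) :
    g * prd a hc x * g⁻¹ = prd a hc (x.mapDomain σ) := by
  have := map_prd a hc (MulAut.conj g).toMonoidHom a hc σ (fun i => by simpa using h i) x
  simpa using this

/-- elements commuting with all factors commute with the product -/
theorem comm_prd (g : P) (h : ∀ i, g * a i = a i * g) (x : ι →₀ ℤ) :
    g * prd a hc x = prd a hc x * g := by
  induction x using Finsupp.induction_linear with
  | zero => rw [prd_zero, one_mul, mul_one]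
  | add x y hx hy => rw [prd_add, ← mul_assoc, hx, mul_assoc, hy, mul_assoc]
  | single i n =>
    rw [prd_single]
    exact Commute.zpow_right (h i) n

end

theorem cmt {G : Type} [Group G] {x y : G} : ⁅x, y⁆ = 1 ↔ x * y = y * x := commutatorElement_eq_one_iff_mul_comm

end Pool.Agent.TH558.HG
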