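import Pool.Agent.TH37.HG.Stmts2
import Pool.Agent.TH558.HG.Prd

set_option autoImplicit false

/-!
X2: a nontrivial `HTriple p` in a group of the variety puts `HGrp p` into the variety.
-/

namespace Pool.Agent.TH558.HG

open Pool.Agent.TH37.HG
open Pool.Agent.H53R2 (InVar)
open scoped commutatorElement

/-- the conjugates under the powers of `t` -/
def cj {G : Type} [Group G] (t b : G) (i : ℤ) : G := t ^ i * b * t ^ (-i)

theorem cj_zero {G : Type} [Group G] (t b : G) : cj t b 0 = b := by simp [cj]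

theorem cj_conj {G : Type} [Group G] (t b : G) (k i : ℤ) :
    t ^ k * cj t b i * t ^ (-k) = cj t b (k + i) := by
  unfold cj
  rw [zpow_add, neg_add_rev, zpow_add]
  group

theorem cj_comm {G : Type} [Group G] {t b c : G} (h : ∀ i : ℤ, ⁅b, t ^ i * c * t ^ (-i)⁆ = 1)
    (i j : ℤ) : cj t b i * cj t c j = cj t c j * cj t b i := by
  have h1 := cmt.1 (h (j - i))
  have h2 : cj t c j = t ^ i * (t ^ (j - i) * c * t ^ (-(j - i))) * t ^ (-i) := by
    have := cj_conj t c i (j - i)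
    rw [show i + (j - i) = j by ring] at this
    rw [← this]
    rfl
  rw [h2]
  unfold cj
  calc t ^ i * b * t ^ (-i) * (t ^ i * (t ^ (j - i) * c * t ^ (-(j - i))) * t ^ (-i))
      = t ^ i * (b * (t ^ (j - i) * c * t ^ (-(j - i)))) * t ^ (-i) := by group
    _ = t ^ i * ((t ^ (j - i) * c * t ^ (-(j - i))) * b) * t ^ (-i) := by rw [h1]
    _ = _ := by group

theorem cj_comm' {G : Type} [Group G] {t b c : G}
    (h : ∀ i : ℤ, i ≠ 0 → ⁅b, t ^ i * c * t ^ (-i)⁆ = 1)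
    (i j : ℤ) (hij : i ≠ j) : cj t b i * cj t c j = cj t c j * cj t b i := by
  have h1 := cmt.1 (h (j - i) (by omega))
  have h2 : cj t c j = t ^ i * (t ^ (j - i) * c * t ^ (-(j - i))) * t ^ (-i) := by
    have := cj_conj t c i (j - i)
    rw [show i + (j - i) = j by ring] at this
    rw [← this]
    rfl
  rw [h2]
  unfold cj
  calc t ^ i * b * t ^ (-i) * (t ^ i * (t ^ (j - i) * c * t ^ (-(j - i))) * t ^ (-i))
      = t ^ i * (b * (t ^ (j - i) * c * t ^ (-(j - i)))) * t ^ (-i) := by group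
    _ = t ^ i * ((t ^ (j - i) * c * t ^ (-(j - i))) * b) * t ^ (-i) := by rw [h1]
    _ = _ := by group

section

variable {P : Type} [Group P] {p : ℕ} {b m t : P} (H : HTriple p b m t)

include H

theorem bcomm (i j : ℤ) : cj t b i * cj t b j = cj t b j * cj t b i := cj_comm H.2.2.1 i j

theorem mcomm (i j : ℤ) : cj t m i * cj t m j = cj t m j * cj t m i := cj_comm H.2.2.2.1 i j

theorem e_b : ⁅b, m⁆ * b = b * ⁅b, m⁆ := cmt.1 H.2.2.2.2.2.1

theorem e_m : ⁅b, m⁆ * m = m * ⁅b, m⁆ := cmt.1 H.2.2.2.2.2.2.1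

theorem e_t : ⁅b, m⁆ * t = t * ⁅b, m⁆ := cmt.1 H.2.2.2.2.2.2.2

theorem e_cjb (i : ℤ) : ⁅b, m⁆ * cj t b i = cj t b i * ⁅b, m⁆ := by
  have h1 : Commute ⁅b, m⁆ t := e_t H
  have h2 : Commute ⁅b, m⁆ b := e_b H
  exact ((h1.zpow_right i).mul_right h2).mul_right (h1.zpow_right (-i))

theorem e_cjm (i : ℤ) : ⁅b, m⁆ * cj t m i = cj t m i * ⁅b, m⁆ := by
  have h1 : Commute ⁅b, m⁆ t := e_t H
  have h2 : Commute ⁅b, m⁆ m := e_m H
  exact ((h1.zpow_right i).mul_right h2).mul_right (h1.zpow_right (-i))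

/-- `B(x)` -/
noncomputable def Bp (x : ℤ →₀ ℤ) : P := prd (cj t b) (bcomm H) x

/-- `M(y)` -/
noncomputable def Mp (x : ℤ →₀ ℤ) : P := prd (cj t m) (mcomm H) x

omit H in
theorem pw {u v e : P} (h : u * v * u⁻¹ = e * v) (hu : Commute e u) (n : ℤ) :
    u ^ n * v * u ^ (-n) = e ^ n * v := by
  have h' : u⁻¹ * v * u = e⁻¹ * v := by
    have : v = e⁻¹ * (u * v * u⁻¹) := by rw [h]; group
    calc u⁻¹ * v * u = u⁻¹ * (e⁻¹ * (u * v * u⁻¹)) * u := by rw [← this]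
      _ = (u⁻¹ * e⁻¹) * u * v := by group
      _ = (e⁻¹ * u⁻¹) * u * v := by rw [(hu.inv_inv).eq]
      _ = e⁻¹ * v := by group
  induction n using Int.induction_on with
  | zero => simp
  | succ i ih =>
    calc u ^ ((i : ℤ) + 1) * v * u ^ (-((i : ℤ) + 1))
        = u * (u ^ (i : ℤ) * v * u ^ (-(i : ℤ))) * u⁻¹ := by group
      _ = u * e ^ (i : ℤ) * v * u⁻¹ := by rw [ih]; group
      _ = e ^ (i : ℤ) * u * v * u⁻¹ := by rw [(hu.zpow_left i).eq]
      _ = e ^ (i : ℤ) * (u * v * u⁻¹) := by group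
      _ = e ^ ((i : ℤ) + 1) * v := by rw [h, zpow_add_one]; group
  | pred i ih =>
    calc u ^ (-(i : ℤ) - 1) * v * u ^ (-(-(i : ℤ) - 1))
        = u⁻¹ * (u ^ (-(i : ℤ)) * v * u ^ (-(-(i : ℤ)))) * u := by group
      _ = u⁻¹ * e ^ (-(i : ℤ)) * v * u := by rw [ih]; group
      _ = e ^ (-(i : ℤ)) * u⁻¹ * v * u := by rw [((hu.zpow_left (-(i : ℤ))).inv_right).eq]
      _ = e ^ (-(i : ℤ)) * (u⁻¹ * v * u) := by group
      _ = e ^ (-(i : ℤ) - 1) * v := by rw [h', zpow_sub_one]; group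

theorem bm (i : ℤ) : cj t b i * cj t m i * (cj t b i)⁻¹ = ⁅b, m⁆ * cj t m i := by
  have h1 : Commute ⁅b, m⁆ (t ^ i) := (show Commute ⁅b, m⁆ t from e_t H).zpow_right i
  unfold cj
  calc t ^ i * b * t ^ (-i) * (t ^ i * m * t ^ (-i)) * (t ^ i * b * t ^ (-i))⁻¹
      = t ^ i * (b * m * b⁻¹ * m⁻¹) * m * t ^ (-i) := by group
    _ = t ^ i * ⁅b, m⁆ * m * t ^ (-i) := by rw [commutatorElement_def]
    _ = ⁅b, m⁆ * t ^ i * m * t ^ (-i) := by rw [h1.eq]
    _ = _ := by group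

theorem mb (i : ℤ) : cj t m i * cj t b i * (cj t m i)⁻¹ = ⁅b, m⁆⁻¹ * cj t b i := by
  have h := bm H i
  have h1 : Commute ⁅b, m⁆ (cj t m i) := e_cjm H i
  have h2 : cj t b i * cj t m i = ⁅b, m⁆ * cj t m i * cj t b i := by rw [← h]; group
  have h3 : cj t m i * cj t b i = ⁅b, m⁆⁻¹ * (cj t b i * cj t m i) := by rw [h2]; group
  rw [h3]; group

theorem bm' {i j : ℤ} (hij : i ≠ j) : cj t b i * cj t m j = cj t m j * cj t b i :=
  cj_comm' H.2.2.2.2.1 i j hij

/-- `B(x) m_i B(x)⁻¹ = e^(x i) m_i` -/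
theorem Bm (x : ℤ →₀ ℤ) (i : ℤ) :
    Bp H x * cj t m i * (Bp H x)⁻¹ = ⁅b, m⁆ ^ (x i) * cj t m i := by
  unfold Bp
  induction x using Finsupp.induction_linear with
  | zero => rw [prd_zero]; simp
  | add x y hx hy =>
    rw [prd_add]
    have h1 : Commute ⁅b, m⁆ (prd (cj t b) (bcomm H) x) :=
      comm_prd _ _ _ (fun i => e_cjb H i) x
    set X := prd (cj t b) (bcomm H) x
    set Y := prd (cj t b) (bcomm H) y
    calc X * Y * cj t m i * (X * Y)⁻¹ = X * (Y * cj t m i * Y⁻¹) * X⁻¹ := by group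
      _ = X * ⁅b, m⁆ ^ (y i) * cj t m i * X⁻¹ := by rw [hy]; group
      _ = ⁅b, m⁆ ^ (y i) * X * cj t m i * X⁻¹ := by rw [(h1.zpow_left (y i)).eq]
      _ = ⁅b, m⁆ ^ (y i) * (X * cj t m i * X⁻¹) := by group
      _ = _ := by
        rw [hx, ← mul_assoc, ← zpow_add, Finsupp.add_apply, add_comm]
  | single j n =>
    rw [prd_single]
    by_cases hij : j = i
    · subst hij
      rw [Finsupp.single_eq_same, ← zpow_neg]
      exact pw (bm H j) (e_cjb H j) n
    · rw [Finsupp.single_eq_of_ne (by tauto), zpow_zero, one_mul]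
      have : Commute (cj t b j) (cj t m i) := bm' H hij
      rw [(this.zpow_left n).eq]
      group

/-- `M(y) b_i M(y)⁻¹ = e^(-y i) b_i` -/
theorem Mb (x : ℤ →₀ ℤ) (i : ℤ) :
    Mp H x * cj t b i * (Mp H x)⁻¹ = ⁅b, m⁆ ^ (-x i) * cj t b i := by
  unfold Mp
  induction x using Finsupp.induction_linear with
  | zero => rw [prd_zero]; simp
  | add x y hx hy =>
    rw [prd_add]
    have h1 : Commute ⁅b, m⁆ (prd (cj t m) (mcomm H) x) :=
      comm_prd _ _ _ (fun i => e_cjm H i) x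
    set X := prd (cj t m) (mcomm H) x
    set Y := prd (cj t m) (mcomm H) y
    calc X * Y * cj t b i * (X * Y)⁻¹ = X * (Y * cj t b i * Y⁻¹) * X⁻¹ := by group
      _ = X * ⁅b, m⁆ ^ (-y i) * cj t b i * X⁻¹ := by rw [hy]; group
      _ = ⁅b, m⁆ ^ (-y i) * X * cj t b i * X⁻¹ := by rw [(h1.zpow_left (-y i)).eq]
      _ = ⁅b, m⁆ ^ (-y i) * (X * cj t b i * X⁻¹) := by group
      _ = _ := by
        rw [hx, ← mul_assoc, ← zpow_add, Finsupp.add_apply, neg_add, add_comm]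
  | single j n =>
    rw [prd_single]
    by_cases hij : j = i
    · subst hij
      rw [Finsupp.single_eq_same, ← zpow_neg (cj t m j)]
      have h := pw (mb H j) ((show Commute ⁅b, m⁆ _ from e_cjm H j).inv_left) n
      rwa [inv_zpow, ← zpow_neg] at h
    · rw [Finsupp.single_eq_of_ne (by tauto), neg_zero, zpow_zero, one_mul]
      have : Commute (cj t m j) (cj t b i) := (bm' H (Ne.symm hij)).symm
      rw [(this.zpow_left n).eq]
      group

/-- the normal form -/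
theorem nf (δ : P) (hδ : δ ∈ Subgroup.closure ({b, m, t} : Set P)) :
    ∃ (x y : ℤ →₀ ℤ) (c k : ℤ), δ = Bp H x * Mp H y * ⁅b, m⁆ ^ c * t ^ k := by
  have eB : ∀ x, Commute ⁅b, m⁆ (Bp H x) := fun x => comm_prd _ _ _ (fun i => e_cjb H i) x
  have eM : ∀ x, Commute ⁅b, m⁆ (Mp H x) := fun x => comm_prd _ _ _ (fun i => e_cjm H i) x
  have et : Commute ⁅b, m⁆ t := e_t H
  have hb : ∀ n : ℤ, b ^ n = Bp H (Finsupp.single 0 n) := by
    intro n
    rw [Bp, prd_single, cj_zero]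
  have hm : ∀ n : ℤ, m ^ n = Mp H (Finsupp.single 0 n) := by
    intro n
    rw [Mp, prd_single, cj_zero]
  have Ba : ∀ x y, Bp H (x + y) = Bp H x * Bp H y := fun x y => prd_add _ _ x y
  have Ma : ∀ x y, Mp H (x + y) = Mp H x * Mp H y := fun x y => prd_add _ _ x y
  have hmB : ∀ (n : ℤ) (x : ℤ →₀ ℤ), m ^ n * Bp H x = Bp H x * m ^ n * ⁅b, m⁆ ^ (-(n * x 0)) := by
    intro n x
    have h1 := Bm H x 0
    rw [cj_zero] at h1
    have h2 : Bp H x * m ^ n * (Bp H x)⁻¹ = ⁅b, m⁆ ^ (n * x 0) * m ^ n := by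
      have h3 : (Bp H x * m * (Bp H x)⁻¹) ^ n = Bp H x * m ^ n * (Bp H x)⁻¹ := conj_zpow
      rw [← h3, h1]
      have h4 : Commute (⁅b, m⁆ ^ x 0) m := (show Commute ⁅b, m⁆ m from e_m H).zpow_left _
      rw [h4.mul_zpow, ← zpow_mul, mul_comm (x 0) n]
    have h5 : Bp H x * m ^ n = ⁅b, m⁆ ^ (n * x 0) * m ^ n * Bp H x := by rw [← h2]; group
    have h6 : Commute (⁅b, m⁆ ^ (-(n * x 0))) (Bp H x * m ^ n) := by
      apply Commute.zpow_left
      exact (eB x).mul_right ((show Commute ⁅b, m⁆ m from e_m H).zpow_right n)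
    rw [← h6.eq, h5]
    group
  have tB : ∀ (n : ℤ) (x : ℤ →₀ ℤ), t ^ n * Bp H x = Bp H (x.mapDomain (fun i => n + i)) * t ^ n := by
    intro n x
    have := conj_prd (cj t b) (bcomm H) (t ^ n) (fun i => n + i)
      (fun i => by rw [← zpow_neg]; exact cj_conj t b n i) x
    unfold Bp
    rw [← this]
    group
  have tM : ∀ (n : ℤ) (x : ℤ →₀ ℤ), t ^ n * Mp H x = Mp H (x.mapDomain (fun i => n + i)) * t ^ n := by
    intro n x
    have := conj_prd (cj t m) (mcomm H) (t ^ n) (fun i => n + i)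
      (fun i => by rw [← zpow_neg]; exact cj_conj t m n i) x
    unfold Mp
    rw [← this]
    group
  have stepb : ∀ (n : ℤ) (y : P), (∃ (x y' : ℤ →₀ ℤ) (c k : ℤ), y = Bp H x * Mp H y' * ⁅b, m⁆ ^ c * t ^ k) →
      ∃ (x y' : ℤ →₀ ℤ) (c k : ℤ), b ^ n * y = Bp H x * Mp H y' * ⁅b, m⁆ ^ c * t ^ k := by
    rintro n y ⟨x, y', c, k, rfl⟩
    refine ⟨Finsupp.single 0 n + x, y', c, k, ?_⟩
    rw [Ba, ← hb]
    group
  have stepm : ∀ (n : ℤ) (y : P), (∃ (x y' : ℤ →₀ ℤ) (c k : ℤ), y = Bp H x * Mp H y' * ⁅b, m⁆ ^ c * t ^ k) →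
      ∃ (x y' : ℤ →₀ ℤ) (c k : ℤ), m ^ n * y = Bp H x * Mp H y' * ⁅b, m⁆ ^ c * t ^ k := by
    rintro n y ⟨x, y', c, k, rfl⟩
    refine ⟨x, Finsupp.single 0 n + y', -(n * x 0) + c, k, ?_⟩
    rw [Ma, ← hm, zpow_add]
    calc m ^ n * (Bp H x * Mp H y' * ⁅b, m⁆ ^ c * t ^ k)
        = (m ^ n * Bp H x) * Mp H y' * ⁅b, m⁆ ^ c * t ^ k := by group
      _ = Bp H x * m ^ n * (⁅b, m⁆ ^ (-(n * x 0)) * Mp H y') * ⁅b, m⁆ ^ c * t ^ k := by
          rw [hmB]; group
      _ = Bp H x * m ^ n * (Mp H y' * ⁅b, m⁆ ^ (-(n * x 0))) * ⁅b, m⁆ ^ c * t ^ k := by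
          rw [((eM y').zpow_left _).eq]
      _ = _ := by group
  have stept : ∀ (n : ℤ) (y : P), (∃ (x y' : ℤ →₀ ℤ) (c k : ℤ), y = Bp H x * Mp H y' * ⁅b, m⁆ ^ c * t ^ k) →
      ∃ (x y' : ℤ →₀ ℤ) (c k : ℤ), t ^ n * y = Bp H x * Mp H y' * ⁅b, m⁆ ^ c * t ^ k := by
    rintro n y ⟨x, y', c, k, rfl⟩
    refine ⟨x.mapDomain (fun i => n + i), y'.mapDomain (fun i => n + i), c, n + k, ?_⟩
    calc t ^ n * (Bp H x * Mp H y' * ⁅b, m⁆ ^ c * t ^ k)
        = (t ^ n * Bp H x) * Mp H y' * ⁅b, m⁆ ^ c * t ^ k := by group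
      _ = Bp H (x.mapDomain (fun i => n + i)) * (t ^ n * Mp H y') * ⁅b, m⁆ ^ c * t ^ k := by
          rw [tB]; group
      _ = Bp H (x.mapDomain (fun i => n + i)) * Mp H (y'.mapDomain (fun i => n + i)) *
          (t ^ n * ⁅b, m⁆ ^ c) * t ^ k := by rw [tM]; group
      _ = Bp H (x.mapDomain (fun i => n + i)) * Mp H (y'.mapDomain (fun i => n + i)) *
          (⁅b, m⁆ ^ c * t ^ n) * t ^ k := by rw [((et.zpow_left c).zpow_right n).eq]
      _ = _ := by rw [zpow_add]; group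
  refine Subgroup.closure_induction_left (p := fun δ _ => ∃ (x y : ℤ →₀ ℤ) (c k : ℤ),
    δ = Bp H x * Mp H y * ⁅b, m⁆ ^ c * t ^ k) ?_ ?_ ?_ hδ
  · refine ⟨0, 0, 0, 0, ?_⟩
    rw [Bp, Mp, prd_zero, prd_zero]
    simp
  · rintro x hx y _ hy
    rcases hx with rfl | rfl | rfl
    · have := stepb 1 y hy; rwa [zpow_one] at this
    · have := stepm 1 y hy; rwa [zpow_one] at this
    · have := stept 1 y hy; rwa [zpow_one] at this
  · rintro x hx y _ hy
    rcases hx with rfl | rfl | rfl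
    · have := stepb (-1) y hy; rwa [zpow_neg_one] at this
    · have := stepm (-1) y hy; rwa [zpow_neg_one] at this
    · have := stept (-1) y hy; rwa [zpow_neg_one] at this

theorem e_pow : ⁅b, m⁆ ^ (p : ℤ) = 1 := by
  have h := pw (u := cj t b 0) (v := cj t m 0) (bm H 0) (e_cjb H 0) (p : ℤ)
  rw [cj_zero, cj_zero, zpow_neg, zpow_natCast, H.1] at h
  have : (1 : P) * m * 1⁻¹ = m := by simp
  rw [this] at h
  have h2 : ⁅b, m⁆ ^ (p : ℤ) * m = 1 * m := by rw [one_mul]; exact h.symm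
  exact mul_right_cancel h2

/-- a homomorphism which does not kill `⁅b, m⁆` is injective on the group generated by the
triple -/
theorem inj {G : Type} [Group G] (hp : p.Prime) (φ : P →* G) (hφ : φ ⁅b, m⁆ ≠ 1) (δ : P)
    (hδ : δ ∈ Subgroup.closure ({b, m, t} : Set P)) (h1 : φ δ = 1) : δ = 1 := by
  have eB : ∀ x, Commute ⁅b, m⁆ (Bp H x) := fun x => comm_prd _ _ _ (fun i => e_cjb H i) x
  have eM : ∀ x, Commute ⁅b, m⁆ (Mp H x) := fun x => comm_prd _ _ _ (fun i => e_cjm H i) x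
  have et : Commute ⁅b, m⁆ t := e_t H
  have ee : ∀ c : ℤ, φ ⁅b, m⁆ ^ c = 1 → (p : ℤ) ∣ c := by
    intro c hc
    have h2 : φ ⁅b, m⁆ ^ p = 1 := by
      rw [← map_pow, ← zpow_natCast, e_pow H, map_one]
    have : Fact p.Prime := ⟨hp⟩
    have h3 : orderOf (φ ⁅b, m⁆) = p := orderOf_eq_prime h2 hφ
    rw [← h3]
    exact orderOf_dvd_iff_zpow_eq_one.2 hc
  obtain ⟨x, y, c, k, rfl⟩ := nf H δ hδ
  set δ := Bp H x * Mp H y * ⁅b, m⁆ ^ c * t ^ k with hδd
  -- conjugation of `b_i`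
  have cb : ∀ i, δ * cj t b i * δ⁻¹ = ⁅b, m⁆ ^ (-y (k + i)) * cj t b (k + i) := by
    intro i
    calc δ * cj t b i * δ⁻¹
        = Bp H x * (Mp H y * (⁅b, m⁆ ^ c * (t ^ k * cj t b i * t ^ (-k)) * (⁅b, m⁆ ^ c)⁻¹) * (Mp H y)⁻¹) *
          (Bp H x)⁻¹ := by rw [hδd]; group
      _ = Bp H x * (Mp H y * cj t b (k + i) * (Mp H y)⁻¹) * (Bp H x)⁻¹ := by
          rw [cj_conj, ((show Commute ⁅b, m⁆ _ from e_cjb H (k + i)).zpow_left c).eq]
          group
      _ = (Bp H x * ⁅b, m⁆ ^ (-y (k + i))) * cj t b (k + i) * (Bp H x)⁻¹ := by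
          rw [Mb]; group
      _ = ⁅b, m⁆ ^ (-y (k + i)) * (Bp H x * cj t b (k + i)) * (Bp H x)⁻¹ := by
          rw [← ((eB x).zpow_left (-y (k + i))).eq]; group
      _ = ⁅b, m⁆ ^ (-y (k + i)) * (cj t b (k + i) * Bp H x) * (Bp H x)⁻¹ := by
          have : cj t b (k + i) * Bp H x = Bp H x * cj t b (k + i) :=
            comm_prd _ _ _ (fun j => bcomm H _ _) x
          rw [this]
      _ = _ := by group
  have hk : k = 0 := by
    by_contra hk
    apply hφ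
    have h2 := congrArg φ (cb 0)
    rw [map_mul, map_mul, map_inv, h1, one_mul, inv_one, mul_one, add_zero, cj_zero] at h2
    have h3 : (⁅b, m⁆ ^ (-y k) * cj t b k) * m = m * (⁅b, m⁆ ^ (-y k) * cj t b k) := by
      have c1 : Commute (⁅b, m⁆ ^ (-y k)) m := (show Commute ⁅b, m⁆ m from e_m H).zpow_left _
      have c2 : Commute (cj t b k) m := by
        have := bm' H hk
        rwa [cj_zero] at this
      exact (c1.mul_left c2).eq
    have h4 := congrArg φ h3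
    rw [map_mul φ _ m, map_mul φ m, ← h2] at h4
    rw [map_commutatorElement]
    exact cmt.2 h4
  rw [hk] at cb hδd
  rw [zpow_zero, mul_one] at hδd
  have hy : ∀ i, (p : ℤ) ∣ y i := by
    intro i
    have h2 := congrArg φ (cb i)
    rw [map_mul, map_mul, map_inv, h1, one_mul, inv_one, mul_one, zero_add] at h2
    have h3 : φ ⁅b, m⁆ ^ (-y i) * φ (cj t b i) = 1 * φ (cj t b i) := by
      rw [one_mul, ← map_zpow, ← map_mul, ← h2]
    have h4 := ee _ (mul_right_cancel h3)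
    exact (dvd_neg).1 h4
  have hpw : ∀ (g : P), g ^ p = 1 → ∀ i : ℤ, (p : ℤ) ∣ i → g ^ i = 1 := by
    rintro g hg i ⟨j, rfl⟩
    rw [zpow_mul, zpow_natCast, hg, one_zpow]
  have hcj : ∀ (g : P), g ^ p = 1 → ∀ i, cj t g i ^ p = 1 := by
    intro g hg i
    have : cj t g i = t ^ i * g * (t ^ i)⁻¹ := by unfold cj; group
    rw [this, conj_pow, hg]
    group
  have hM : Mp H y = 1 := by
    apply prd_eq_one
    intro i
    exact hpw _ (hcj m H.2.1 i) _ (hy i)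
  rw [hM, mul_one] at hδd
  have hx : ∀ i, (p : ℤ) ∣ x i := by
    intro i
    have h2 : δ * cj t m i * δ⁻¹ = ⁅b, m⁆ ^ (x i) * cj t m i := by
      calc δ * cj t m i * δ⁻¹ = Bp H x * (⁅b, m⁆ ^ c * cj t m i) * (⁅b, m⁆ ^ c)⁻¹ * (Bp H x)⁻¹ := by
            rw [hδd]; group
        _ = Bp H x * (cj t m i * ⁅b, m⁆ ^ c) * (⁅b, m⁆ ^ c)⁻¹ * (Bp H x)⁻¹ := by
            rw [((show Commute ⁅b, m⁆ _ from e_cjm H i).zpow_left c).eq]
        _ = Bp H x * cj t m i * (Bp H x)⁻¹ := by group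
        _ = _ := Bm H x i
    have h3 := congrArg φ h2
    rw [map_mul, map_mul, map_inv, h1, one_mul, inv_one, mul_one] at h3
    have h4 : φ ⁅b, m⁆ ^ (x i) * φ (cj t m i) = 1 * φ (cj t m i) := by
      rw [one_mul, ← map_zpow, ← map_mul, ← h3]
    exact ee _ (mul_right_cancel h4)
  have hB : Bp H x = 1 := by
    apply prd_eq_one
    intro i
    exact hpw _ (hcj b H.1 i) _ (hx i)
  rw [hB, one_mul] at hδd
  have hc : (p : ℤ) ∣ c := by
    apply ee
    rw [← map_zpow, ← hδd, h1]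
  rw [hδd]
  exact hpw _ (by rw [← zpow_natCast]; exact e_pow H) _ hc

end

/-- passing from generators of a subgroup of `G × Q` to `Q` -/
theorem transfer {W : Set (FreeGroup ℕ)} {G Q : Type} [Group G] [Group Q] (hG : InVar W G)
    (S : Set (G × Q)) (T : Set Q) (hT : T ⊆ Prod.snd '' S)
    (hinj : ∀ δ ∈ Subgroup.closure S, δ.1 = 1 → δ = 1) : InVar W ↥(Subgroup.closure T) := by
  have h1 : InVar W ↥(Subgroup.closure S) := by
    apply hG.of_injective ((MonoidHom.fst G Q).comp (Subgroup.closure S).subtype)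
    rw [injective_iff_map_eq_one]
    intro δ hδ
    exact Subtype.ext (hinj δ.1 δ.2 hδ)
  have h2 : InVar W ↥((Subgroup.closure S).map (MonoidHom.snd G Q)) :=
    h1.of_surjective _ (MonoidHom.subgroupMap_surjective (MonoidHom.snd G Q) (Subgroup.closure S))
  have h3 : Subgroup.closure T ≤ (Subgroup.closure S).map (MonoidHom.snd G Q) := by
    rw [Subgroup.closure_le, MonoidHom.map_closure]
    exact fun x hx => Subgroup.subset_closure (hT hx)
  exact h2.of_injective (Subgroup.inclusion h3) (Subgroup.inclusion_injective h3)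

/-! ### the concrete triple -/

section

variable (p : ℕ)

/-- translation by `δ_i` -/
def Hb (i : ℤ) : Equiv.Perm ((ℤ → ZMod p) × ZMod p) where
  toFun x := (x.1 + Pi.single i 1, x.2)
  invFun x := (x.1 - Pi.single i 1, x.2)
  left_inv x := by simp
  right_inv x := by simp

/-- `(x, c) ↦ (x, c + x i)` -/
def Hm (i : ℤ) : Equiv.Perm ((ℤ → ZMod p) × ZMod p) where
  toFun x := (x.1, x.2 + x.1 i)
  invFun x := (x.1, x.2 - x.1 i)
  left_inv x := by simp
  right_inv x := by simp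

theorem ht_hb (i : ℤ) : ht p * Hb p i = Hb p (i + 1) * ht p := by
  ext x j
  · simp only [Equiv.Perm.coe_mul, Function.comp_apply, ht, Hb, Equiv.coe_fn_mk, Pi.add_apply,
      Pi.single_apply]
    congr 1
    by_cases h : j - 1 = i
    · rw [if_pos h, if_pos (by omega)]
    · rw [if_neg h, if_neg (by omega)]
  · simp [ht, Hb]

theorem ht_hm (i : ℤ) : ht p * Hm p i = Hm p (i + 1) * ht p := by
  ext x j
  · simp [ht, Hm]
  · simp [ht, Hm]

theorem cj_of {G : Type} [Group G] (t : G) (f : ℤ → G) (h : ∀ i, t * f i = f (i + 1) * t) (i : ℤ) :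
    cj t (f 0) i = f i := by
  have h1 : ∀ i, f (i + 1) = t * f i * t⁻¹ := by
    intro i; rw [h]; group
  have h2 : ∀ i, f (i - 1) = t⁻¹ * f i * t := by
    intro i
    have := h1 (i - 1)
    rw [sub_add_cancel] at this
    rw [this]; group
  unfold cj
  induction i using Int.induction_on with
  | zero => simp
  | succ i ih =>
    rw [h1, ← ih]; group
  | pred i ih =>
    rw [h2, ← ih]; group

theorem hb_eq (i : ℤ) : cj (ht p) (hb p) i = Hb p i := cj_of (ht p) (Hb p) (ht_hb p) i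

theorem hm_eq (i : ℤ) : cj (ht p) (hm p) i = Hm p i := cj_of (ht p) (Hm p) (ht_hm p) i

theorem hcom : ⁅hb p, hm p⁆ = ⟨fun x => (x.1, x.2 - 1), fun x => (x.1, x.2 + 1),
    fun x => by simp, fun x => by simp⟩ := by
  ext x j
  · simp [commutatorElement_def, hb, hm]
  · simp [commutatorElement_def, hb, hm]

theorem hb_pow (n : ℕ) (x : (ℤ → ZMod p) × ZMod p) :
    (hb p ^ n) x = (x.1 + n • Pi.single 0 1, x.2) := by
  induction n with
  | zero => simp
  | succ n ih =>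
    rw [pow_succ', Equiv.Perm.coe_mul, Function.comp_apply, ih]
    simp only [hb, Equiv.coe_fn_mk, Prod.mk.injEq, and_true]
    rw [add_assoc, ← succ_nsmul]

theorem hm_pow (n : ℕ) (x : (ℤ → ZMod p) × ZMod p) :
    (hm p ^ n) x = (x.1, x.2 + n • x.1 0) := by
  induction n with
  | zero => simp
  | succ n ih =>
    rw [pow_succ', Equiv.Perm.coe_mul, Function.comp_apply, ih]
    simp only [hm, Equiv.coe_fn_mk, Prod.mk.injEq, true_and]
    rw [add_assoc, ← succ_nsmul]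

theorem htriple : HTriple p (hb p) (hm p) (ht p) := by
  refine ⟨?_, ?_, ?_, ?_, ?_, ?_, ?_, ?_⟩
  · ext x j
    · rw [hb_pow]
      simp
    · rw [hb_pow]
      simp
  · ext x j
    · rw [hm_pow]
      simp
    · rw [hm_pow]
      simp
  · intro i
    change ⁅hb p, cj (ht p) (hb p) i⁆ = 1
    rw [hb_eq, cmt]
    ext x j
    · simp only [Equiv.Perm.coe_mul, Function.comp_apply, hb, Hb, Equiv.coe_fn_mk, Pi.add_apply]
      ring
    · simp [hb, Hb]
  · intro i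
    change ⁅hm p, cj (ht p) (hm p) i⁆ = 1
    rw [hm_eq, cmt]
    ext x j
    · simp [hm, Hm]
    · simp only [Equiv.Perm.coe_mul, Function.comp_apply, hm, Hm, Equiv.coe_fn_mk]
      ring
  · intro i hi
    change ⁅hb p, cj (ht p) (hm p) i⁆ = 1
    rw [hm_eq, cmt]
    ext x j
    · simp [hb, Hm]
    · simp [hb, Hm, hi]
  · rw [hcom, cmt]
    ext x j
    · simp [hb]
    · simp [hb]
  · rw [hcom, cmt]
    ext x j
    · simp [hm]
    · simp only [Equiv.Perm.coe_mul, Function.comp_apply, hm, Equiv.coe_fn_mk]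
      ring
  · rw [hcom, cmt]
    ext x j
    · simp [ht]
    · simp [ht]

end

theorem HTriple.prod {G Q : Type} [Group G] [Group Q] {p : ℕ} {b m t : G} {b' m' t' : Q}
    (h : HTriple p b m t) (h' : HTriple p b' m' t') : HTriple p (b, b') (m, m') (t, t') := by
  obtain ⟨h1, h2, h3, h4, h5, h6, h7, h8⟩ := h
  obtain ⟨k1, k2, k3, k4, k5, k6, k7, k8⟩ := h'
  have key : ∀ x : G × Q, x.1 = 1 → x.2 = 1 → x = 1 := fun x h1 h2 => Prod.ext h1 h2
  refine ⟨?_, ?_, ?_, ?_, ?_, ?_, ?_, ?_⟩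
  · exact key _ h1 k1
  · exact key _ h2 k2
  · exact fun i => key _ (h3 i) (k3 i)
  · exact fun i => key _ (h4 i) (k4 i)
  · exact fun i hi => key _ (h5 i hi) (k5 i hi)
  · exact key _ h6 k6
  · exact key _ h7 k7
  · exact key _ h8 k8

theorem x2 : X2Stmt := by
  intro W G _ hG p hp b m t H hbm
  have HP : HTriple p (b, hb p) (m, hm p) (t, ht p) := HTriple.prod H (htriple p)
  refine transfer hG {(b, hb p), (m, hm p), (t, ht p)} {hb p, hm p, ht p} ?_ ?_
  · rintro x (rfl | rfl | rfl)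
    · exact ⟨(b, hb p), by simp, rfl⟩
    · exact ⟨(m, hm p), by simp, rfl⟩
    · exact ⟨(t, ht p), by simp, rfl⟩
  · intro δ hδ h1
    exact inj HP hp (MonoidHom.fst G _) hbm δ hδ h1

end Pool.Agent.TH558.HG
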