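import Pool.Agent.TH558.HG.X6

set_option autoImplicit false

/-!
X6: reduction to `⁅b, m⁆`, products, the concrete triple.
-/

namespace Pool.Agent.TH558.HG

open Pool.Agent.TH37.HG
open Pool.Agent.H53R2 (InVar)
open scoped commutatorElement

section

variable {P : Type} [Group P] {p q : ℕ} [hq : Fact q.Prime] {b m t : P} (H : WTriple p q b m t)

include H

omit hq H in
theorem com_eq : ⁅b, m⁆ = b * (cj m b 1)⁻¹ := by
  rw [commutatorElement_def]
  unfold cj
  group

omit hq H in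
theorem cj_com (s : ℤ) : cj m ⁅b, m⁆ s = cj m b s * (cj m b (s + 1))⁻¹ := by
  rw [com_eq, cj_mul, cj_inv]
  congr 2
  unfold cj
  rw [zpow_add]
  group

theorem cfam (x : ℤ × ZMod q) : fam q ⁅b, m⁆ m t x =
    WB H (Finsupp.single x 1 - Finsupp.single (x.1, x.2 + 1) 1) := by
  obtain ⟨i, s⟩ := x
  have e1 : fam q ⁅b, m⁆ m t (i, s) = fam q b m t (i, s) * (fam q b m t (i, s + 1))⁻¹ := by
    rw [fam_cast H i ((s.val : ℤ) + 1) (s + 1) (by simp)]
    unfold fam
    simp only
    rw [cj_com, cj_mul, cj_inv]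
  rw [e1, sub_eq_add_neg]
  unfold WB
  rw [prd_add, prd_neg, prd_single, prd_single, zpow_one, zpow_one]

theorem ctriple : WTriple p q ⁅b, m⁆ m t := by
  have hc0 : ⁅b, m⁆ = fam q ⁅b, m⁆ m t (0, 0) := by
    unfold fam
    simp [cj]
  have hcomm : ∀ (i s j r : ℤ), Commute (cj t (cj m ⁅b, m⁆ s) i) (cj t (cj m ⁅b, m⁆ r) j) := by
    intro i s j r
    rw [cj_com, cj_com, cj_mul, cj_inv, cj_mul, cj_inv]
    have h := fun i s j r => w_bb H i s j r
    exact ((h _ _ _ _).mul_left (h _ _ _ _).inv_left).mul_right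
      (((h _ _ _ _).mul_left (h _ _ _ _).inv_left).inv_right)
  have hbm : ∀ i : ℤ, i ≠ 0 → Commute b (cj t m i) := by
    intro i hi
    have := w_bm H (i := 0) (j := i) (Ne.symm hi)
    rwa [cj_zero] at this
  have hmm : ∀ i : ℤ, Commute m (cj t m i) := by
    intro i
    have := w_mm H 0 i
    rwa [cj_zero] at this
  refine ⟨?_, H.2.1, H.2.2.1, ?_, ?_⟩
  · have h1 : Commute b (cj m b 1)⁻¹ := by
      apply Commute.inv_right
      have := w_bb H 0 0 0 1
      rwa [cj_zero, cj_zero, cj_zero] at this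
    rw [com_eq, h1.mul_pow, H.1, inv_pow, ← cj_pow, H.1]
    simp [cj]
  · intro i hi
    apply cmt.2
    change Commute ⁅b, m⁆ (cj t m i)
    rw [commutatorElement_def]
    exact (((hbm i hi).mul_left (hmm i)).mul_left (hbm i hi).inv_left).mul_left (hmm i).inv_left
  · intro i s
    apply cmt.2
    have := hcomm 0 0 i s
    rw [cj_zero, cj_zero] at this
    exact this

theorem WBc (x : ℤ × ZMod q →₀ ℤ) : WB (ctriple H) x =
    WB H (x - x.mapDomain (fun y => (y.1, y.2 + 1))) := by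
  induction x using Finsupp.induction_linear with
  | zero =>
    rw [Finsupp.mapDomain_zero, sub_zero]
    unfold WB
    rw [prd_zero, prd_zero]
  | add x y hx hy =>
    have e : x + y - (x + y).mapDomain (fun y => (y.1, y.2 + 1)) =
        (x - x.mapDomain (fun y => (y.1, y.2 + 1))) +
        (y - y.mapDomain (fun y => (y.1, y.2 + 1))) := by
      rw [Finsupp.mapDomain_add]; abel
    rw [e]
    unfold WB at hx hy ⊢
    rw [prd_add, prd_add, hx, hy]
  | single a n =>
    rw [Finsupp.mapDomain_single]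
    have e : Finsupp.single a n - Finsupp.single (a.1, a.2 + 1) n =
        n • (Finsupp.single a 1 - Finsupp.single (a.1, a.2 + 1) (1 : ℤ)) := by
      rw [smul_sub, Finsupp.smul_single, Finsupp.smul_single]
      simp
    have hz : ∀ (n : ℤ) (z : ℤ × ZMod q →₀ ℤ), WB H (n • z) = WB H z ^ n := by
      intro n z
      induction n using Int.induction_on with
      | zero => rw [zero_smul, zpow_zero]; exact prd_zero _ _
      | succ i ih =>
        rw [add_smul, one_smul, zpow_add_one, ← ih]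
        exact prd_add _ _ _ _
      | pred i ih =>
        rw [sub_smul, one_smul, zpow_sub_one, ← ih, sub_eq_add_neg]
        unfold WB
        rw [prd_add, prd_neg]
    rw [e, hz, ← cfam]
    exact prd_single _ _ _ _

theorem cN : WB (ctriple H) (∑ s : ZMod q, Finsupp.single (0, s) (1 : ℤ)) = 1 := by
  rw [WBc H, Finsupp.mapDomain_finsetSum]
  have e : ∑ s : ZMod q, Finsupp.mapDomain (fun y : ℤ × ZMod q => (y.1, y.2 + 1))
      (Finsupp.single ((0 : ℤ), s) (1 : ℤ)) = ∑ s : ZMod q, Finsupp.single ((0 : ℤ), s) (1 : ℤ) := by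
    refine Fintype.sum_equiv (Equiv.addRight 1) _ _ fun s => ?_
    rw [Finsupp.mapDomain_single]
    rfl
  rw [e, sub_self]
  exact prd_zero _ _

omit hq in
theorem powtriple (r : ℕ) : WTriple p q b (m ^ r) t := by
  have hmm : ∀ i : ℤ, Commute m (cj t m i) := by
    intro i
    have := w_mm H 0 i
    rwa [cj_zero] at this
  refine ⟨H.1, ?_, ?_, ?_, ?_⟩
  · rw [← pow_mul, mul_comm, pow_mul, H.2.1, one_pow]
  · intro i
    apply cmt.2
    change Commute (m ^ r) (cj t (m ^ r) i)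
    rw [cj_pow]
    exact ((hmm i).pow_left r).pow_right r
  · intro i hi
    apply cmt.2
    change Commute b (cj t (m ^ r) i)
    rw [cj_pow]
    have : Commute b (cj t m i) := by
      have := w_bm H (i := 0) (j := i) (Ne.symm hi)
      rwa [cj_zero] at this
    exact this.pow_right r
  · intro i s
    have := H.2.2.2.2 i ((r : ℤ) * s)
    rwa [← mul_neg, zpow_mul, zpow_mul, zpow_natCast] at this

end

theorem WTriple.prod {G Q : Type} [Group G] [Group Q] {p q : ℕ} {b m t : G} {b' m' t' : Q}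
    (h : WTriple p q b m t) (h' : WTriple p q b' m' t') :
    WTriple p q (b, b') (m, m') (t, t') := by
  obtain ⟨h1, h2, h3, h4, h5⟩ := h
  obtain ⟨k1, k2, k3, k4, k5⟩ := h'
  have key : ∀ x : G × Q, x.1 = 1 → x.2 = 1 → x = 1 := fun x h1 h2 => Prod.ext h1 h2
  refine ⟨?_, ?_, ?_, ?_, ?_⟩
  · exact key _ h1 k1
  · exact key _ h2 k2
  · exact fun i => key _ (h3 i) (k3 i)
  · exact fun i hi => key _ (h4 i hi) (k4 i hi)
  · exact fun i s => key _ (h5 i s) (k5 i s)

theorem WTriple.pi {κ G : Type} [Group G] {p q : ℕ} {b m t : κ → G}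
    (h : ∀ k, WTriple p q (b k) (m k) (t k)) : WTriple p q b m t := by
  refine ⟨?_, ?_, ?_, ?_, ?_⟩
  · exact funext fun k => (h k).1
  · exact funext fun k => (h k).2.1
  · exact fun i => funext fun k => (h k).2.2.1 i
  · exact fun i hi => funext fun k => (h k).2.2.2.1 i hi
  · exact fun i s => funext fun k => (h k).2.2.2.2 i s

theorem inVar_pi {W : Set (FreeGroup ℕ)} {κ G : Type} [Group G] (h : InVar W G) :
    InVar W (κ → G) := by
  intro w hw f
  funext k
  have h1 : (Pi.evalMonoidHom (fun _ : κ => G) k).comp (FreeGroup.lift f) =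
      FreeGroup.lift (fun n => f n k) := by
    apply FreeGroup.ext_hom
    intro a
    simp
  have h2 := DFunLike.congr_fun h1 w
  rw [h w hw] at h2
  exact h2

/-! ### the concrete triple -/

section

variable (p q : ℕ)

/-- `(i, s, z) ↦ (i, s, z + 1)` -/
def Wb (i : ℤ) (s : ZMod q) : Equiv.Perm (ℤ × ZMod q × ZMod p) where
  toFun x := if x.1 = i ∧ x.2.1 = s then (x.1, x.2.1, x.2.2 + 1) else x
  invFun x := if x.1 = i ∧ x.2.1 = s then (x.1, x.2.1, x.2.2 - 1) else x
  left_inv x := by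
    by_cases h : x.1 = i ∧ x.2.1 = s
    · simp [h]
      ext <;> simp [h]
    · simp [h]
  right_inv x := by
    by_cases h : x.1 = i ∧ x.2.1 = s
    · simp [h]
      ext <;> simp [h]
    · simp [h]

/-- `(i, s, z) ↦ (i, s + 1, z)` -/
def Wm (i : ℤ) : Equiv.Perm (ℤ × ZMod q × ZMod p) where
  toFun x := if x.1 = i then (x.1, x.2.1 + 1, x.2.2) else x
  invFun x := if x.1 = i then (x.1, x.2.1 - 1, x.2.2) else x
  left_inv x := by
    by_cases h : x.1 = i
    · simp [h]
      ext <;> simp [h]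
    · simp [h]
  right_inv x := by
    by_cases h : x.1 = i
    · simp [h]
      ext <;> simp [h]
    · simp [h]

variable {p q}

theorem Wb_pos {i a : ℤ} {s r : ZMod q} {z : ZMod p} (h : a = i ∧ r = s) :
    Wb p q i s (a, r, z) = (a, r, z + 1) := if_pos h

theorem Wb_neg {i a : ℤ} {s r : ZMod q} {z : ZMod p} (h : ¬ (a = i ∧ r = s)) :
    Wb p q i s (a, r, z) = (a, r, z) := if_neg h

theorem Wm_pos {i a : ℤ} {r : ZMod q} {z : ZMod p} (h : a = i) :
    Wm p q i (a, r, z) = (a, r + 1, z) := if_pos h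

theorem Wm_neg {i a : ℤ} {r : ZMod q} {z : ZMod p} (h : ¬ (a = i)) :
    Wm p q i (a, r, z) = (a, r, z) := if_neg h

theorem wt_app (a : ℤ) (r : ZMod q) (z : ZMod p) : wt p q (a, r, z) = (a + 1, r, z) := rfl

theorem wt_Wb (i : ℤ) (s : ZMod q) : wt p q * Wb p q i s = Wb p q (i + 1) s * wt p q := by
  apply Equiv.ext
  rintro ⟨a, r, z⟩
  rw [Equiv.Perm.mul_apply, Equiv.Perm.mul_apply, wt_app a r z]
  by_cases h : a = i ∧ r = s
  · rw [Wb_pos h, Wb_pos ⟨by rw [h.1], h.2⟩, wt_app]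
  · rw [Wb_neg h, Wb_neg (fun h' => h ⟨by omega, h'.2⟩), wt_app]

theorem wt_Wm (i : ℤ) : wt p q * Wm p q i = Wm p q (i + 1) * wt p q := by
  apply Equiv.ext
  rintro ⟨a, r, z⟩
  rw [Equiv.Perm.mul_apply, Equiv.Perm.mul_apply, wt_app a r z]
  by_cases h : a = i
  · rw [Wm_pos h, Wm_pos (by rw [h]), wt_app]
  · rw [Wm_neg h, Wm_neg (fun h' => h (by omega)), wt_app]

theorem wm_Wb (s : ZMod q) : Wm p q 0 * Wb p q 0 s = Wb p q 0 (s + 1) * Wm p q 0 := by
  apply Equiv.ext
  rintro ⟨a, r, z⟩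
  rw [Equiv.Perm.mul_apply, Equiv.Perm.mul_apply]
  by_cases h0 : a = 0
  · rw [Wm_pos h0]
    by_cases h : r = s
    · rw [Wb_pos ⟨h0, h⟩, Wm_pos h0, Wb_pos ⟨h0, by rw [h]⟩]
    · rw [Wb_neg (fun h' => h h'.2), Wm_pos h0, Wb_neg (fun h' => h (add_right_cancel h'.2))]
  · rw [Wm_neg h0, Wb_neg (fun h => h0 h.1), Wb_neg (fun h => h0 h.1), Wm_neg h0]

theorem cjWm (i : ℤ) : cj (wt p q) (wm p q) i = Wm p q i := cj_of (wt p q) (Wm p q) wt_Wm i

theorem cjWb0 (s : ℤ) : cj (wm p q) (wb p q) s = Wb p q 0 (s : ZMod q) := by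
  have := cj_of (wm p q) (fun s : ℤ => Wb p q 0 (s : ZMod q)) (fun s => by
    have := wm_Wb (p := p) (q := q) (s : ZMod q)
    push_cast
    exact this) s
  simp only [Int.cast_zero] at this
  exact this

theorem cjWb (i s : ℤ) : cj (wt p q) (cj (wm p q) (wb p q) s) i = Wb p q i (s : ZMod q) := by
  rw [cjWb0]
  exact cj_of (wt p q) (fun i => Wb p q i (s : ZMod q)) (fun i => wt_Wb i _) i

theorem Wmm (i j : ℤ) : Wm p q i * Wm p q j = Wm p q j * Wm p q i := by
  apply Equiv.ext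
  rintro ⟨a, r, z⟩
  rw [Equiv.Perm.mul_apply, Equiv.Perm.mul_apply]
  by_cases hi : a = i
  · by_cases hj : a = j
    · rw [hi.symm.trans hj]
    · rw [Wm_neg hj, Wm_pos hi, Wm_neg hj]
  · by_cases hj : a = j
    · rw [Wm_neg hi, Wm_pos hj, Wm_neg hi]
    · rw [Wm_neg hj, Wm_neg hi, Wm_neg hj]

theorem Wbm {i j : ℤ} (hij : i ≠ j) (s : ZMod q) :
    Wb p q i s * Wm p q j = Wm p q j * Wb p q i s := by
  apply Equiv.ext
  rintro ⟨a, r, z⟩
  rw [Equiv.Perm.mul_apply, Equiv.Perm.mul_apply]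
  by_cases hi : a = i
  · have hj : ¬ a = j := fun h => hij (hi.symm.trans h)
    rw [Wm_neg hj]
    by_cases h : r = s
    · rw [Wb_pos ⟨hi, h⟩, Wm_neg hj]
    · rw [Wb_neg (fun h' => h h'.2), Wm_neg hj]
  · rw [Wb_neg (r := r) (fun h' => hi h'.1)]
    by_cases hj : a = j
    · rw [Wm_pos hj, Wb_neg (fun h' => hi h'.1)]
    · rw [Wm_neg hj, Wb_neg (fun h' => hi h'.1)]

theorem Wbb (i j : ℤ) (s r : ZMod q) :
    Wb p q i s * Wb p q j r = Wb p q j r * Wb p q i s := by
  apply Equiv.ext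
  rintro ⟨a, r', z⟩
  rw [Equiv.Perm.mul_apply, Equiv.Perm.mul_apply]
  by_cases hi : a = i ∧ r' = s
  · by_cases hj : a = j ∧ r' = r
    · rw [hi.1.symm.trans hj.1, hi.2.symm.trans hj.2]
    · rw [Wb_neg hj, Wb_pos hi, Wb_neg hj]
  · by_cases hj : a = j ∧ r' = r
    · rw [Wb_neg hi, Wb_pos hj, Wb_neg hi]
    · rw [Wb_neg hj, Wb_neg hi, Wb_neg hj]

theorem wb_pow (n : ℕ) (a : ℤ) (r : ZMod q) (z : ZMod p) :
    (wb p q ^ n) (a, r, z) = if a = 0 ∧ r = 0 then (a, r, z + n) else (a, r, z) := by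
  induction n with
  | zero =>
    rw [pow_zero]
    split_ifs <;> simp
  | succ n ih =>
    rw [pow_succ', Equiv.Perm.mul_apply, ih]
    by_cases h : a = 0 ∧ r = 0
    · rw [if_pos h, if_pos h]
      rw [show wb p q = Wb p q 0 0 from rfl, Wb_pos h]
      simp only [Prod.mk.injEq, true_and]
      push_cast
      ring
    · rw [if_neg h, if_neg h]
      rw [show wb p q = Wb p q 0 0 from rfl, Wb_neg h]

theorem wm_pow (n : ℕ) (a : ℤ) (r : ZMod q) (z : ZMod p) :
    (wm p q ^ n) (a, r, z) = if a = 0 then (a, r + n, z) else (a, r, z) := by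
  induction n with
  | zero =>
    rw [pow_zero]
    split_ifs <;> simp
  | succ n ih =>
    rw [pow_succ', Equiv.Perm.mul_apply, ih]
    by_cases h : a = 0
    · rw [if_pos h, if_pos h]
      rw [show wm p q = Wm p q 0 from rfl, Wm_pos h]
      simp only [Prod.mk.injEq, true_and, and_true]
      push_cast
      ring
    · rw [if_neg h, if_neg h]
      rw [show wm p q = Wm p q 0 from rfl, Wm_neg h]

variable (p q)

theorem wtriple : WTriple p q (wb p q) (wm p q) (wt p q) := by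
  refine ⟨?_, ?_, ?_, ?_, ?_⟩
  · apply Equiv.ext
    rintro ⟨a, r, z⟩
    rw [wb_pow]
    split_ifs <;> simp
  · apply Equiv.ext
    rintro ⟨a, r, z⟩
    rw [wm_pow]
    split_ifs <;> simp
  · intro i
    apply cmt.2
    change wm p q * cj (wt p q) (wm p q) i = cj (wt p q) (wm p q) i * wm p q
    rw [cjWm]
    exact Wmm 0 i
  · intro i hi
    apply cmt.2
    change wb p q * cj (wt p q) (wm p q) i = cj (wt p q) (wm p q) i * wb p q
    rw [cjWm]
    exact Wbm (Ne.symm hi) 0
  · intro i s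
    apply cmt.2
    change wb p q * cj (wt p q) (cj (wm p q) (wb p q) s) i =
      cj (wt p q) (cj (wm p q) (wb p q) s) i * wb p q
    rw [cjWb]
    exact Wbb _ _ _ _

end

theorem x6 : X6Stmt := by
  intro W G _ hG p q hp hq hpq b m t H hbm
  have : Fact q.Prime := ⟨hq⟩
  have HC := ctriple H
  have hN := cN H
  set c := ⁅b, m⁆ with hc
  have HP : WTriple p q ((fun _ : ZMod q => c, wb p q) : (ZMod q → G) × _)
      (fun r : ZMod q => m ^ r.val, wm p q) (fun _ : ZMod q => t, wt p q) :=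
    WTriple.prod (WTriple.pi fun r => powtriple HC r.val) (wtriple p q)
  refine transfer (inVar_pi (κ := ZMod q) hG) {((fun _ : ZMod q => c), wb p q),
    ((fun r : ZMod q => m ^ r.val), wm p q), ((fun _ : ZMod q => t), wt p q)}
    {wb p q, wm p q, wt p q} ?_ ?_
  · rintro x (rfl | rfl | rfl)
    · exact ⟨((fun _ : ZMod q => c), wb p q), by simp, rfl⟩
    · exact ⟨((fun r : ZMod q => m ^ r.val), wm p q), by simp, rfl⟩
    · exact ⟨((fun _ : ZMod q => t), wt p q), by simp, rfl⟩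
  · intro δ hδ h1
    refine winj HP HC hp hpq hbm hN
      (fun r => (Pi.evalMonoidHom (fun _ : ZMod q => G) r).comp (MonoidHom.fst _ _))
      (fun r => rfl) (fun r => rfl) (fun r => rfl) δ hδ (fun r => ?_)
    change δ.1 r = 1
    rw [h1]
    rfl

end Pool.Agent.TH558.HG
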