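import Pool.Agent.TH558.HG.X6b

set_option autoImplicit false

/-!
X7: the forbidden groups contain configurations.
-/

namespace Pool.Agent.TH558.HG

open Pool.Agent.TH37.HG
open scoped commutatorElement

theorem sub_cfg {G : Type} [Group G] (K : Subgroup G) (b m t : K)
    (h : Cfg (b : G) (m : G) (t : G)) (h2 : ⁅(b : G), (m : G)⁆ ≠ 1) :
    Cfg b m t ∧ ⁅b, m⁆ ≠ 1 := by
  constructor
  · intro i hi
    apply Subtype.ext
    exact h i hi
  · intro h3
    apply h2
    have := congrArg Subtype.val h3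
    exact this

theorem x7 : X7Stmt := by
  constructor
  · intro p hp
    have : Fact p.Prime := ⟨hp⟩
    refine ⟨⟨hb p, Subgroup.subset_closure (by simp)⟩, ⟨hm p, Subgroup.subset_closure (by simp)⟩,
      ⟨ht p, Subgroup.subset_closure (by simp)⟩, ?_⟩
    apply sub_cfg
    · exact (htriple p).2.2.2.2.1
    · change ⁅hb p, hm p⁆ ≠ 1
      rw [hcom]
      intro h
      have := congrArg (fun e : Equiv.Perm ((ℤ → ZMod p) × ZMod p) => (e (0, 0)).2) h
      simp at this
  · intro p q hp hq
    have : Fact p.Prime := ⟨hp⟩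
    have : Fact q.Prime := ⟨hq⟩
    refine ⟨⟨wb p q, Subgroup.subset_closure (by simp)⟩, ⟨wm p q, Subgroup.subset_closure (by simp)⟩,
      ⟨wt p q, Subgroup.subset_closure (by simp)⟩, ?_⟩
    apply sub_cfg
    · exact (wtriple p q).2.2.2.1
    · change ⁅wb p q, wm p q⁆ ≠ 1
      intro h
      have h1 := cmt.1 h
      have h2 := congrArg (fun e : Equiv.Perm (ℤ × ZMod q × ZMod p) => (e (0, 0, 0)).2.2) h1
      simp only [Equiv.Perm.mul_apply] at h2
      rw [show wb p q = Wb p q 0 0 from rfl, show wm p q = Wm p q 0 from rfl, Wm_pos rfl,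
        Wb_pos ⟨rfl, rfl⟩, Wm_pos rfl, Wb_neg (by simp)] at h2
      simp at h2

end Pool.Agent.TH558.HG
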