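import Mathlib

set_option autoImplicit false

/-!
The linear algebra for X6: Fourier inversion on `ZMod q` modulo a subgroup.
-/

namespace Pool.Agent.TH558.HG

open Finsupp

/-- translation in one coordinate -/
def sg (q : ℕ) (k : ℤ) (n : ZMod q) (x : ℤ × ZMod q) : ℤ × ZMod q :=
  if x.1 = k then (x.1, x.2 + n) else x

theorem alg {p q : ℕ} [hq : Fact q.Prime] (hp : p.Prime) (hpq : p ≠ q)
    (K : AddSubgroup (ℤ × ZMod q →₀ ℤ))
    (K1 : ∀ z ∈ K, ∀ (j : ℤ) (h : ZMod q), z.mapDomain (sg q j h) ∈ K)
    (K2 : ∀ z, (p : ℤ) • z ∈ K)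
    (K3 : ∀ j : ℤ, ∑ s : ZMod q, single (j, s) (1 : ℤ) ∈ K)
    (K4 : ∀ (j : ℤ) (s : ZMod q) (n : ℤ), single (j, s) n ∈ K → (p : ℤ) ∣ n)
    (x : ℤ × ZMod q →₀ ℤ)
    (hx : ∀ r : ZMod q, x.mapDomain (fun i => (i.1, r * i.2)) ∈ K) (j : ℤ) (l : ZMod q) :
    (p : ℤ) ∣ x (j, l) := by
  have hcop : IsCoprime (p : ℤ) (q : ℤ) :=
    Nat.isCoprime_iff_coprime.2 ((Nat.coprime_primes hp hq.out).2 hpq)
  have hbez : ∀ z, (q : ℤ) • z ∈ K → z ∈ K := by
    intro z hz
    obtain ⟨u, v, huv⟩ := hcop
    have h1 : z = u • ((p : ℤ) • z) + v • ((q : ℤ) • z) := by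
      rw [smul_smul, smul_smul, ← add_smul, huv, one_smul]
    rw [h1]
    exact K.add_mem (K.zsmul_mem (K2 z) u) (K.zsmul_mem hz v)
  have hN : ∀ n : ℤ, ∑ s : ZMod q, single (j, s) n ∈ K := by
    intro n
    have h1 : ∑ s : ZMod q, single (j, s) n = n • ∑ s : ZMod q, single (j, s) (1 : ℤ) := by
      rw [Finset.smul_sum]
      refine Finset.sum_congr rfl fun s _ => ?_
      rw [smul_single, smul_eq_mul, mul_one]
    rw [h1]
    exact K.zsmul_mem (K3 j) n
  -- restriction to the coordinate `j`
  let R : (ℤ × ZMod q →₀ ℤ) → (ℤ × ZMod q →₀ ℤ) := fun z => z.filter (fun y => y.1 = j)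
  have Radd : ∀ z w, R (z + w) = R z + R w := fun z w => filter_add
  have R1 : ∀ (s : ZMod q) (n : ℤ), R (single (j, s) n) = single (j, s) n := fun s n =>
    filter_single_of_pos _ rfl
  have R2 : ∀ (i : ℤ) (s : ZMod q) (n : ℤ), i ≠ j → R (single (i, s) n) = 0 := fun i s n h =>
    filter_single_of_neg _ h
  have R0 : R 0 = 0 := filter_zero _
  have stepT : ∀ z, (∑ h : ZMod q, z.mapDomain (sg q j h)) - (q : ℤ) • (z - R z) ∈ K := by
    intro z
    induction z using Finsupp.induction_linear with
    | zero =>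
      rw [R0]
      simp
    | add z w hz hw =>
      have := K.add_mem hz hw
      have e : (∑ h : ZMod q, (z + w).mapDomain (sg q j h)) - (q : ℤ) • (z + w - R (z + w)) =
          ((∑ h : ZMod q, z.mapDomain (sg q j h)) - (q : ℤ) • (z - R z)) +
          ((∑ h : ZMod q, w.mapDomain (sg q j h)) - (q : ℤ) • (w - R w)) := by
        rw [Radd]
        simp only [mapDomain_add, Finset.sum_add_distrib, smul_sub, smul_add]
        abel
      rw [e]
      exact this
    | single a n =>
      obtain ⟨i, s⟩ := a
      by_cases h : i = j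
      · subst h
        rw [R1, sub_self, smul_zero, sub_zero]
        have e : ∑ h : ZMod q, (single (i, s) n).mapDomain (sg q i h) =
            ∑ s' : ZMod q, single (i, s') n := by
          refine Fintype.sum_equiv (Equiv.addLeft s) _ _ fun h => ?_
          rw [mapDomain_single]
          simp [sg]
        rw [e]
        exact hN n
      · rw [R2 i s n h, sub_zero]
        have e : ∑ h' : ZMod q, (single (i, s) n).mapDomain (sg q j h') =
            (q : ℤ) • single (i, s) n := by
          have : ∀ h' : ZMod q, (single (i, s) n).mapDomain (sg q j h') = single (i, s) n := by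
            intro h'
            rw [mapDomain_single]
            simp [sg, h]
          rw [Finset.sum_congr rfl fun h' _ => this h', Finset.sum_const, Finset.card_univ,
            ZMod.card]
          simp
        rw [e, sub_self]
        exact K.zero_mem
  have stepR : ∀ z ∈ K, R z ∈ K := by
    intro z hz
    have h1 : ∑ h : ZMod q, z.mapDomain (sg q j h) ∈ K := K.sum_mem fun h _ => K1 z hz j h
    have h2 := K.sub_mem h1 (stepT z)
    rw [sub_sub_cancel] at h2
    have h3 := hbez _ h2
    have h4 := K.sub_mem hz h3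
    rwa [sub_sub_cancel] at h4
  have Rmap : ∀ (r : ZMod q) (z : ℤ × ZMod q →₀ ℤ),
      R (z.mapDomain (fun i => (i.1, r * i.2))) = (R z).mapDomain (fun i => (i.1, r * i.2)) := by
    intro r z
    induction z using Finsupp.induction_linear with
    | zero => rw [mapDomain_zero, R0, mapDomain_zero]
    | add z w hz hw => rw [mapDomain_add, Radd, hz, hw, Radd, mapDomain_add]
    | single a n =>
      obtain ⟨i, s⟩ := a
      rw [mapDomain_single]
      by_cases h : i = j
      · subst h
        rw [R1, R1, mapDomain_single]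
      · rw [R2 _ _ _ h, R2 _ _ _ h, mapDomain_zero]
  have hRx : R x = ∑ s : ZMod q, single (j, s) (x (j, s)) := by
    ext ⟨i, s⟩
    rw [finsetSum_apply]
    by_cases h : i = j
    · subst h
      rw [show R x (i, s) = x (i, s) from filter_apply_pos _ _ rfl]
      rw [Finset.sum_eq_single s]
      · rw [single_eq_same]
      · intro s' _ hs'
        rw [single_eq_of_ne]
        intro h2
        exact hs' (by simpa using h2.symm)
      · intro h2
        exact absurd (Finset.mem_univ s) h2
    · rw [show R x (i, s) = 0 from filter_apply_neg _ _ h]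
      symm
      apply Finset.sum_eq_zero
      intro s' _
      rw [single_eq_of_ne]
      intro h2
      exact h (by simpa using congrArg Prod.fst h2)
  have h5 : ∀ r : ZMod q, ∑ s : ZMod q, single (j, r * s + -(r * l)) (x (j, s)) ∈ K := by
    intro r
    have h6 := stepR _ (hx r)
    rw [Rmap, hRx] at h6
    have h7 := K1 _ h6 j (-(r * l))
    have e : ((∑ s : ZMod q, single (j, s) (x (j, s))).mapDomain
        (fun i : ℤ × ZMod q => (i.1, r * i.2))).mapDomain (sg q j (-(r * l))) =
        ∑ s : ZMod q, single (j, r * s + -(r * l)) (x (j, s)) := by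
      rw [mapDomain_finsetSum, mapDomain_finsetSum]
      refine Finset.sum_congr rfl fun s _ => ?_
      rw [mapDomain_single, mapDomain_single]
      simp [sg]
    rwa [e] at h7
  have h8 : ∑ r : ZMod q, ∑ s : ZMod q, single (j, r * s + -(r * l)) (x (j, s)) ∈ K :=
    K.sum_mem fun r _ => h5 r
  rw [Finset.sum_comm] at h8
  rw [← Finset.add_sum_erase _ _ (Finset.mem_univ l)] at h8
  have h9 : ∑ s ∈ Finset.univ.erase l, ∑ r : ZMod q, single (j, r * s + -(r * l)) (x (j, s)) ∈ K := by
    apply K.sum_mem
    intro s hs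
    have hsl : s - l ≠ 0 := sub_ne_zero.2 (Finset.ne_of_mem_erase hs)
    have e : ∑ r : ZMod q, single (j, r * s + -(r * l)) (x (j, s)) =
        ∑ r : ZMod q, single (j, r) (x (j, s)) := by
      refine Fintype.sum_equiv (Equiv.mulRight₀ (s - l) hsl) _ _ fun r => ?_
      have h11 : r * s + -(r * l) = (Equiv.mulRight₀ (s - l) hsl) r := by
        change _ = r * (s - l)
        ring
      rw [h11]
    rw [e]
    exact hN _
  have h10 := K.sub_mem h8 h9
  rw [add_sub_cancel_right] at h10
  have e : ∑ r : ZMod q, single (j, r * l + -(r * l)) (x (j, l)) =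
      single (j, 0) ((q : ℤ) * x (j, l)) := by
    have : ∀ r : ZMod q, single (j, r * l + -(r * l)) (x (j, l)) = single (j, 0) (x (j, l)) := by
      intro r
      rw [add_neg_cancel]
    rw [Finset.sum_congr rfl fun r _ => this r, Finset.sum_const, Finset.card_univ, ZMod.card,
      smul_single, nsmul_eq_mul]
  rw [e] at h10
  exact hcop.dvd_of_dvd_mul_left (K4 _ _ _ h10)

end Pool.Agent.TH558.HG
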