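import Pool.Agent.TH558.HG.X2
import Pool.Agent.TH558.HG.Alg

set_option autoImplicit false

/-!
X6: a nontrivial `WTriple p q` in a group of the variety puts `WGrp p q` into the variety.
-/

namespace Pool.Agent.TH558.HG

open Pool.Agent.TH37.HG
open Pool.Agent.H53R2 (InVar)
open scoped commutatorElement

section

variable {P : Type} [Group P] {p q : ℕ} {b m t : P} (H : WTriple p q b m t)

include H

theorem w_mm (i j : ℤ) : Commute (cj t m i) (cj t m j) := cj_comm H.2.2.1 i j

theorem w_mme (i j : ℤ) : cj t m i * cj t m j = cj t m j * cj t m i := cj_comm H.2.2.1 i j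

theorem w_bm {i j : ℤ} (h : i ≠ j) : Commute (cj t b i) (cj t m j) :=
  cj_comm' H.2.2.2.1 i j h

omit H in
theorem cj_mul {G : Type} [Group G] (t x y : G) (i : ℤ) :
    cj t (x * y) i = cj t x i * cj t y i := by
  unfold cj; group

omit H in
theorem cj_inv {G : Type} [Group G] (t x : G) (i : ℤ) :
    cj t x⁻¹ i = (cj t x i)⁻¹ := by
  unfold cj; group

omit H in
theorem cj_zpow {G : Type} [Group G] (t x : G) (i n : ℤ) :
    cj t (x ^ n) i = (cj t x i) ^ n := by
  unfold cj
  rw [zpow_neg, conj_zpow]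

omit H in
theorem cj_pow {G : Type} [Group G] (t x : G) (i : ℤ) (n : ℕ) :
    cj t (x ^ n) i = (cj t x i) ^ n := by
  unfold cj
  rw [zpow_neg, conj_pow]

omit H in
theorem cj_commute {G : Type} [Group G] {t x y : G} {i j : ℤ} (h : Commute x (cj t y (j - i))) :
    Commute (cj t x i) (cj t y j) := by
  have h2 : cj t y j = t ^ i * cj t y (j - i) * t ^ (-i) := by
    rw [cj_conj]; congr 1; ring
  rw [h2]
  unfold Commute SemiconjBy
  unfold cj at h ⊢
  calc t ^ i * x * t ^ (-i) * (t ^ i * (t ^ (j - i) * y * t ^ (-(j - i))) * t ^ (-i))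
      = t ^ i * (x * (t ^ (j - i) * y * t ^ (-(j - i)))) * t ^ (-i) := by group
    _ = t ^ i * ((t ^ (j - i) * y * t ^ (-(j - i))) * x) * t ^ (-i) := by rw [h.eq]
    _ = _ := by group

/-- `m_k` commutes with `b_{i,s}`, `k ≠ i` -/
theorem w_mb {k i : ℤ} (h : k ≠ i) (s : ℤ) : Commute (cj t m k) (cj t (cj m b s) i) := by
  apply Commute.symm
  apply cj_commute
  have h1 : Commute (cj t m (k - i)) m := by
    have := w_mm H (k - i) 0
    rwa [cj_zero] at this
  have h2 : Commute (cj t m (k - i)) b := by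
    have := (w_bm H (i := 0) (j := k - i) (by omega)).symm
    rwa [cj_zero] at this
  exact (((h1.zpow_right s).mul_right h2).mul_right (h1.zpow_right (-s))).symm

theorem w_bb (i s j r : ℤ) : Commute (cj t (cj m b s) i) (cj t (cj m b r) j) := by
  apply cj_commute
  by_cases hl : j - i = 0
  · rw [hl, cj_zero]
    refine cj_comm (fun k => ?_) s r
    have := H.2.2.2.2 0 k
    simpa using this
  · have h1 : Commute (cj t (cj m b r) (j - i)) m := by
      have := (w_mb H (k := 0) (i := j - i) (by omega) r).symm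
      rwa [cj_zero] at this
    have h2 : Commute (cj t (cj m b r) (j - i)) b := (cmt.1 (H.2.2.2.2 (j - i) r)).symm
    exact (((h1.zpow_right s).mul_right h2).mul_right (h1.zpow_right (-s))).symm

theorem cj_per (j : ℤ) : cj m b (j % q) = cj m b j := by
  have h : ∀ n : ℤ, m ^ ((q : ℤ) * n) = 1 := by
    intro n
    rw [zpow_mul, zpow_natCast, H.2.1, one_zpow]
  have h2 : m ^ j = m ^ (j % q) := by
    conv_lhs => rw [← Int.emod_add_mul_ediv j q, zpow_add, h, mul_one]
  unfold cj
  rw [zpow_neg, zpow_neg, h2]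

end

section

variable {P : Type} [Group P] {p q : ℕ} [hq : Fact q.Prime] {b m t : P} (H : WTriple p q b m t)

/-- the elements `b_{i,s}` -/
def fam (q : ℕ) {P : Type} [Group P] (b m t : P) (x : ℤ × ZMod q) : P :=
  cj t (cj m b (x.2.val : ℤ)) x.1

include H

theorem fam_int (i j : ℤ) : fam q b m t (i, (j : ZMod q)) = cj t (cj m b j) i := by
  unfold fam
  simp only
  rw [ZMod.val_intCast, cj_per H]

theorem fam_cast (i j : ℤ) (s : ZMod q) (h : (j : ZMod q) = s) :
    fam q b m t (i, s) = cj t (cj m b j) i := by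
  rw [← h, fam_int H]

omit hq in
theorem fcomm (x y : ℤ × ZMod q) :
    fam q b m t x * fam q b m t y = fam q b m t y * fam q b m t x := w_bb H _ _ _ _

/-- `B(x)` -/
noncomputable def WB (x : ℤ × ZMod q →₀ ℤ) : P := prd (fam q b m t) (fcomm H) x

/-- `M(y)` -/
noncomputable def WM (x : ℤ →₀ ℤ) : P := prd (cj t m) (w_mme H) x

theorem conj_fam (k n : ℤ) (x : ℤ × ZMod q) :
    cj t m k ^ n * fam q b m t x * (cj t m k ^ n)⁻¹ = fam q b m t (sg q k n x) := by
  obtain ⟨i, s⟩ := x
  have hs : ((s.val : ℤ) : ZMod q) = s := by simp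
  unfold sg
  simp only
  by_cases h : i = k
  · subst h
    rw [if_pos rfl, fam_cast H i (s.val : ℤ) s hs, fam_cast H i (n + s.val : ℤ) (s + n) (by
      push_cast; rw [ZMod.natCast_zmod_val]; ring)]
    rw [← cj_zpow, ← cj_inv, ← cj_mul, ← cj_mul]
    congr 1
    unfold cj
    group
  · rw [if_neg h, fam_cast H i (s.val : ℤ) s hs]
    rw [((w_mb H (Ne.symm h) (s.val : ℤ)).zpow_left n).eq]
    group

omit H hq in
theorem conjt_fam (n : ℤ) (x : ℤ × ZMod q) :
    t ^ n * fam q b m t x * (t ^ n)⁻¹ = fam q b m t (n + x.1, x.2) := by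
  obtain ⟨i, s⟩ := x
  unfold fam
  simp only
  rw [← zpow_neg]
  exact cj_conj t _ n i

/-- the normal form -/
theorem wnf (δ : P) (hδ : δ ∈ Subgroup.closure ({b, m, t} : Set P)) :
    ∃ (x : ℤ × ZMod q →₀ ℤ) (y : ℤ →₀ ℤ) (k : ℤ), δ = WB H x * WM H y * t ^ k := by
  have hb : ∀ n : ℤ, b ^ n = WB H (Finsupp.single (0, 0) n) := by
    intro n
    rw [WB, prd_single]
    unfold fam
    simp [cj]
  have hm : ∀ n : ℤ, m ^ n = WM H (Finsupp.single 0 n) := by
    intro n
    rw [WM, prd_single, cj_zero]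
  have Ba : ∀ x y, WB H (x + y) = WB H x * WB H y := fun x y => prd_add _ _ x y
  have Ma : ∀ x y, WM H (x + y) = WM H x * WM H y := fun x y => prd_add _ _ x y
  have hmB : ∀ (n : ℤ) (x : ℤ × ZMod q →₀ ℤ),
      m ^ n * WB H x = WB H (x.mapDomain (sg q 0 n)) * m ^ n := by
    intro n x
    have := conj_prd (fam q b m t) (fcomm H) (m ^ n) (sg q 0 n)
      (fun i => by have := conj_fam H 0 n i; rwa [cj_zero] at this) x
    unfold WB
    rw [← this]
    group
  have tB : ∀ (n : ℤ) (x : ℤ × ZMod q →₀ ℤ),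
      t ^ n * WB H x = WB H (x.mapDomain (fun i => (n + i.1, i.2))) * t ^ n := by
    intro n x
    have := conj_prd (fam q b m t) (fcomm H) (t ^ n) (fun i => (n + i.1, i.2))
      (fun i => conjt_fam n i) x
    unfold WB
    rw [← this]
    group
  have tM : ∀ (n : ℤ) (x : ℤ →₀ ℤ), t ^ n * WM H x = WM H (x.mapDomain (fun i => n + i)) * t ^ n := by
    intro n x
    have := conj_prd (cj t m) (w_mme H) (t ^ n) (fun i => n + i)
      (fun i => by rw [← zpow_neg]; exact cj_conj t m n i) x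
    unfold WM
    rw [← this]
    group
  have stepb : ∀ (n : ℤ) (y : P), (∃ (x : ℤ × ZMod q →₀ ℤ) (y' : ℤ →₀ ℤ) (k : ℤ),
      y = WB H x * WM H y' * t ^ k) →
      ∃ (x : ℤ × ZMod q →₀ ℤ) (y' : ℤ →₀ ℤ) (k : ℤ), b ^ n * y = WB H x * WM H y' * t ^ k := by
    rintro n y ⟨x, y', k, rfl⟩
    refine ⟨Finsupp.single (0, 0) n + x, y', k, ?_⟩
    rw [Ba, ← hb]
    group
  have stepm : ∀ (n : ℤ) (y : P), (∃ (x : ℤ × ZMod q →₀ ℤ) (y' : ℤ →₀ ℤ) (k : ℤ),
      y = WB H x * WM H y' * t ^ k) →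
      ∃ (x : ℤ × ZMod q →₀ ℤ) (y' : ℤ →₀ ℤ) (k : ℤ), m ^ n * y = WB H x * WM H y' * t ^ k := by
    rintro n y ⟨x, y', k, rfl⟩
    refine ⟨x.mapDomain (sg q 0 n), Finsupp.single 0 n + y', k, ?_⟩
    rw [Ma, ← hm, ← mul_assoc, ← mul_assoc, hmB]
    group
  have stept : ∀ (n : ℤ) (y : P), (∃ (x : ℤ × ZMod q →₀ ℤ) (y' : ℤ →₀ ℤ) (k : ℤ),
      y = WB H x * WM H y' * t ^ k) →
      ∃ (x : ℤ × ZMod q →₀ ℤ) (y' : ℤ →₀ ℤ) (k : ℤ), t ^ n * y = WB H x * WM H y' * t ^ k := by
    rintro n y ⟨x, y', k, rfl⟩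
    refine ⟨x.mapDomain (fun i => (n + i.1, i.2)), y'.mapDomain (fun i => n + i), n + k, ?_⟩
    rw [← mul_assoc, ← mul_assoc, tB, mul_assoc (WB H _) (t ^ n), tM, zpow_add]
    group
  refine Subgroup.closure_induction_left (p := fun δ _ => ∃ (x : ℤ × ZMod q →₀ ℤ)
    (y : ℤ →₀ ℤ) (k : ℤ), δ = WB H x * WM H y * t ^ k) ?_ ?_ ?_ hδ
  · refine ⟨0, 0, 0, ?_⟩
    rw [WB, WM, prd_zero, prd_zero]
    simp
  · rintro x hx y _ hy
    rcases hx with rfl | rfl | rfl
    · have := stepb 1 y hy; rwa [zpow_one] at this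
    · have := stepm 1 y hy; rwa [zpow_one] at this
    · have := stept 1 y hy; rwa [zpow_one] at this
  · rintro x hx y _ hy
    rcases hx with rfl | rfl | rfl
    · have := stepb (-1) y hy; rwa [zpow_neg_one] at this
    · have := stepm (-1) y hy; rwa [zpow_neg_one] at this
    · have := stept (-1) y hy; rwa [zpow_neg_one] at this

theorem conjM (y : ℤ →₀ ℤ) (i : ℤ) (s : ZMod q) :
    WM H y * fam q b m t (i, s) * (WM H y)⁻¹ = fam q b m t (i, s + (y i : ZMod q)) := by
  unfold WM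
  induction y using Finsupp.induction_linear generalizing s with
  | zero => rw [prd_zero]; simp
  | add x y hx hy =>
    rw [prd_add]
    set X := prd (cj t m) (w_mme H) x
    set Y := prd (cj t m) (w_mme H) y
    calc X * Y * fam q b m t (i, s) * (X * Y)⁻¹ = X * (Y * fam q b m t (i, s) * Y⁻¹) * X⁻¹ := by group
      _ = fam q b m t (i, s + (y i : ZMod q) + (x i : ZMod q)) := by rw [hy, hx]
      _ = _ := by
        rw [Finsupp.add_apply]
        congr 2
        push_cast
        ring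
  | single j n =>
    rw [prd_single, conj_fam H]
    unfold sg
    simp only
    by_cases h : i = j
    · rw [if_pos h, h, Finsupp.single_eq_same]
    · rw [if_neg h, Finsupp.single_eq_of_ne (by tauto)]
      simp

omit hq in
theorem famB (x : ℤ × ZMod q →₀ ℤ) (y : ℤ × ZMod q) :
    WB H x * fam q b m t y * (WB H x)⁻¹ = fam q b m t y := by
  have : fam q b m t y * WB H x = WB H x * fam q b m t y :=
    comm_prd _ _ _ (fun j => fcomm H _ _) x
  rw [← this]
  group

theorem fam_pow (x : ℤ × ZMod q) (n : ℤ) (hn : (p : ℤ) ∣ n) : fam q b m t x ^ n = 1 := by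
  obtain ⟨j, rfl⟩ := hn
  have h : fam q b m t x ^ p = 1 := by
    unfold fam
    rw [← cj_pow, ← cj_pow, H.1]
    simp [cj]
  rw [zpow_mul, zpow_natCast, h, one_zpow]

/-- homomorphisms that detect the group generated by the triple -/
theorem winj {G : Type} [Group G] {c μ τ : G} (HG : WTriple p q c μ τ) (hp : p.Prime)
    (hpq : p ≠ q) (hc : c ≠ 1) (hN : WB HG (∑ s : ZMod q, Finsupp.single (0, s) (1 : ℤ)) = 1)
    (φ : ZMod q → P →* G) (hφb : ∀ r, φ r b = c) (hφm : ∀ r, φ r m = μ ^ r.val)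
    (hφt : ∀ r, φ r t = τ) (δ : P) (hδ : δ ∈ Subgroup.closure ({b, m, t} : Set P))
    (h1 : ∀ r, φ r δ = 1) : δ = 1 := by
  have hpc : c ^ p = 1 := HG.1
  have : Fact p.Prime := ⟨hp⟩
  have hoc : orderOf c = p := orderOf_eq_prime hpc hc
  have hcop : IsCoprime (p : ℤ) (q : ℤ) :=
    Nat.isCoprime_iff_coprime.2 ((Nat.coprime_primes hp hq.out).2 hpq)
  -- `μ` does not commute with `c`
  have hncomm : ¬ Commute μ c := by
    intro h
    have hcc : ∀ i j, cj τ c i * cj τ c j = cj τ c j * cj τ c i := fun i j => by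
      have := (w_bb HG i 0 j 0).eq
      rwa [show cj μ c 0 = c from cj_zero μ c] at this
    have h2 : WB HG (∑ s : ZMod q, Finsupp.single (0, s) (1 : ℤ)) =
        prd (cj τ c) hcc
          ((∑ s : ZMod q, Finsupp.single ((0 : ℤ), s) (1 : ℤ)).mapDomain Prod.fst) := by
      have := map_prd (fam q c μ τ) (fcomm HG) (MonoidHom.id G) (cj τ c) hcc
          Prod.fst (fun x => by
            rw [MonoidHom.id_apply]
            unfold fam
            congr 1
            unfold cj
            rw [(h.zpow_left _).eq]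
            group) (∑ s : ZMod q, Finsupp.single ((0 : ℤ), s) (1 : ℤ))
      exact this
    rw [hN, Finsupp.mapDomain_finsetSum] at h2
    have h3 : (∑ s : ZMod q, Finsupp.mapDomain Prod.fst (Finsupp.single ((0 : ℤ), s) (1 : ℤ))) =
        Finsupp.single 0 (q : ℤ) := by
      have : ∀ s : ZMod q, Finsupp.mapDomain Prod.fst (Finsupp.single ((0 : ℤ), s) (1 : ℤ)) =
          Finsupp.single 0 1 := fun s => Finsupp.mapDomain_single
      rw [Finset.sum_congr rfl fun s _ => this s, Finset.sum_const, Finset.card_univ, ZMod.card,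
        Finsupp.smul_single, nsmul_eq_mul, mul_one]
    rw [h3, prd_single, cj_zero] at h2
    apply hc
    have h4 : (p : ℤ) ∣ q := by
      rw [← hoc]
      exact orderOf_dvd_iff_zpow_eq_one.2 h2.symm
    exact absurd ((Nat.prime_dvd_prime_iff_eq hp hq.out).1 (by exact_mod_cast h4)) hpq
  have hμq : ∀ n : ℤ, (q : ℤ) ∣ n → μ ^ n = 1 := by
    rintro n ⟨j, rfl⟩
    rw [zpow_mul, zpow_natCast, HG.2.1, one_zpow]
  have hfamφ : ∀ (r : ZMod q) (x : ℤ × ZMod q), φ r (fam q b m t x) = fam q c μ τ (x.1, r * x.2) := by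
    rintro r ⟨i, s⟩
    rw [fam_cast HG i ((r.val : ℤ) * (s.val : ℤ)) (r * s) (by simp)]
    have e1 : (μ ^ r.val) ^ (s.val : ℤ) = μ ^ ((r.val : ℤ) * s.val) := by
      rw [← zpow_natCast, ← zpow_mul]
    have e2 : (μ ^ r.val) ^ (-(s.val : ℤ)) = μ ^ (-((r.val : ℤ) * s.val)) := by
      rw [← zpow_natCast, ← zpow_mul, mul_neg]
    unfold fam cj
    simp only [map_mul, map_zpow, hφb, hφm, hφt]
    rw [e1, e2]
  obtain ⟨x, y, k, hδd⟩ := wnf H δ hδ
  have cb : ∀ i, δ * fam q b m t (i, 0) * δ⁻¹ = fam q b m t (k + i, (y (k + i) : ZMod q)) := by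
    intro i
    calc δ * fam q b m t (i, 0) * δ⁻¹
        = WB H x * (WM H y * (t ^ k * fam q b m t (i, 0) * (t ^ k)⁻¹) * (WM H y)⁻¹) *
          (WB H x)⁻¹ := by rw [hδd]; group
      _ = fam q b m t (k + i, (y (k + i) : ZMod q)) := by
          rw [conjt_fam, conjM, famB, zero_add]
  have cb' : ∀ i, fam q c μ τ (i, 0) = fam q c μ τ (k + i, (y (k + i) : ZMod q)) := by
    intro i
    have h2 := congrArg (φ 1) (cb i)
    rw [map_mul, map_mul, map_inv, h1, one_mul, inv_one, mul_one, hfamφ, hfamφ] at h2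
    simpa using h2
  have hf0 : fam q c μ τ (0, 0) = c := by
    unfold fam
    simp [cj]
  have hk : k = 0 := by
    by_contra hk
    apply hncomm
    have h2 := cb' 0
    rw [hf0, add_zero] at h2
    rw [h2]
    have h3 := w_mb HG (k := 0) (i := k) (Ne.symm hk) (((y k : ZMod q)).val : ℤ)
    rw [cj_zero] at h3
    exact h3
  subst hk
  rw [zpow_zero, mul_one] at hδd
  have hy : ∀ i, (q : ℤ) ∣ y i := by
    intro i
    by_contra hyi
    apply hncomm
    have h2 := cb' i
    rw [zero_add, fam_int HG, fam_cast HG i 0 0 (by simp)] at h2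
    have h3 : cj μ c 0 = cj μ c (y i) := by
      unfold cj at h2 ⊢
      have := congrArg (fun g => τ ^ (-i) * g * τ ^ i) h2
      calc _ = τ ^ (-i) * (τ ^ i * (μ ^ (0 : ℤ) * c * μ ^ (-(0 : ℤ))) * τ ^ (-i)) * τ ^ i := by group
        _ = τ ^ (-i) * (τ ^ i * (μ ^ (y i) * c * μ ^ (-(y i))) * τ ^ (-i)) * τ ^ i := this
        _ = _ := by group
    have h4 : Commute (μ ^ (y i)) c := by
      rw [cj_zero] at h3
      unfold cj at h3
      have h5 : c * μ ^ (y i) = μ ^ (y i) * c := by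
        conv_lhs => rw [h3]
        group
      exact h5.symm
    have h6 : IsCoprime (y i) (q : ℤ) := by
      rw [Int.isCoprime_iff_gcd_eq_one, Int.gcd_comm]
      have := (Int.prime_iff_natAbs_prime.2 (by simpa using hq.out) : Prime (q : ℤ))
      rw [← Int.isCoprime_iff_gcd_eq_one]
      exact (this.coprime_iff_not_dvd).2 hyi
    obtain ⟨u, v, huv⟩ := h6
    have h7 : μ = (μ ^ (y i)) ^ u := by
      have h8 : μ ^ (u * y i + v * q) = μ := by rw [huv, zpow_one]
      rw [zpow_add, hμq (v * q) ⟨v, by ring⟩, mul_one] at h8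
      rw [← zpow_mul, mul_comm (y i) u, h8]
    rw [h7]
    exact h4.zpow_left u
  have hM : WM H y = 1 := by
    apply prd_eq_one
    intro i
    obtain ⟨j, hj⟩ := hy i
    have h2 : cj t m i ^ q = 1 := by
      rw [← cj_pow, H.2.1]
      simp [cj]
    rw [hj, zpow_mul, zpow_natCast, h2, one_zpow]
  rw [hM, mul_one] at hδd
  let K : AddSubgroup (ℤ × ZMod q →₀ ℤ) :=
    { carrier := {z | WB HG z = 1}
      zero_mem' := prd_zero _ _
      add_mem' := by
        intro z w hz hw
        rw [Set.mem_ofPred_eq] at hz hw ⊢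
        rw [show WB HG (z + w) = WB HG z * WB HG w from prd_add _ _ z w, hz, hw, one_mul]
      neg_mem' := by
        intro z hz
        rw [Set.mem_ofPred_eq] at hz ⊢
        rw [show WB HG (-z) = (WB HG z)⁻¹ from prd_neg _ _ z, hz, inv_one] }
  have hK : ∀ z, z ∈ K ↔ WB HG z = 1 := fun z => Iff.rfl
  have hx : ∀ (j : ℤ) (l : ZMod q), (p : ℤ) ∣ x (j, l) := by
    intro j l
    refine alg hp hpq K ?_ ?_ ?_ ?_ x ?_ j l
    · intro z hz j h
      rw [hK] at hz ⊢
      have h2 := conj_prd (fam q c μ τ) (fcomm HG) (cj τ μ j ^ (h.val : ℤ)) (sg q j h)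
        (fun i => by
          have := conj_fam HG j (h.val : ℤ) i
          rwa [show (((h.val : ℕ) : ℤ) : ZMod q) = h by simp] at this) z
      rw [show prd (fam q c μ τ) (fcomm HG) z = 1 from hz, mul_one, mul_inv_cancel] at h2
      exact h2.symm
    · intro z
      rw [hK]
      apply prd_eq_one
      intro i
      apply fam_pow HG
      rw [Finsupp.smul_apply, smul_eq_mul]
      exact ⟨_, rfl⟩
    · intro j
      rw [hK]
      have h2 := conj_prd (fam q c μ τ) (fcomm HG) (τ ^ j) (fun x => (j + x.1, x.2))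
        (fun i => conjt_fam j i) (∑ s : ZMod q, Finsupp.single (0, s) (1 : ℤ))
      rw [show prd (fam q c μ τ) (fcomm HG) (∑ s : ZMod q, Finsupp.single (0, s) (1 : ℤ)) = 1 from hN,
        mul_one, mul_inv_cancel, Finsupp.mapDomain_finsetSum] at h2
      simp only [Finsupp.mapDomain_single, add_zero] at h2
      exact h2.symm
    · intro j s n hn
      rw [hK] at hn
      unfold WB at hn
      rw [prd_single] at hn
      have h2 : c ^ n = 1 := by
        have h3 : fam q c μ τ (j, s) = (τ ^ j * μ ^ (s.val : ℤ)) * c * (τ ^ j * μ ^ (s.val : ℤ))⁻¹ := by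
          unfold fam cj
          group
        rw [h3, conj_zpow] at hn
        exact conj_eq_one_iff.1 hn
      rw [← hoc]
      exact orderOf_dvd_iff_zpow_eq_one.2 h2
    · intro r
      rw [hK]
      have h2 := map_prd (fam q b m t) (fcomm H) (φ r) (fam q c μ τ) (fcomm HG)
        (fun i => (i.1, r * i.2)) (fun i => hfamφ r i) x
      have h3 := h1 r
      rw [hδd] at h3
      rw [show φ r (prd (fam q b m t) (fcomm H) x) = 1 from h3] at h2
      exact h2.symm
  rw [hδd]
  apply prd_eq_one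
  rintro ⟨i, s⟩
  exact fam_pow H _ _ (hx i s)

end

end Pool.Agent.TH558.HG
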